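import Mathlib
import Pool.Agent.helper76.Final

/-! Additive functions with few descents, with few ascents. -/

set_option autoImplicit false

namespace Pool.Agent.Results.MP_f916f1_nt.DescentsAndAscents

open Filter Asymptotics

/-- The number of elements of `A` that are at most `X`. -/
noncomputable def count (A : Set ℕ+) (X : ℝ) : ℝ := (A ∩ {n : ℕ+ | (n : ℝ) ≤ X}).ncard

/-- The function `f` on the natural numbers. -/
noncomputable def ext (f : ℕ+ → ℝ) (n : ℕ) : ℝ := f n.toPNat'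

lemma ext_pnat (f : ℕ+ → ℝ) (n : ℕ+) : ext f n = f n := by
  unfold ext
  rw [PNat.coe_toPNat']

lemma exists_pnat (n : ℕ) (hn : 0 < n) : ∃ m : ℕ+, (m : ℕ) = n := ⟨⟨n, hn⟩, rfl⟩

lemma isAdd_ext (f : ℕ+ → ℝ) (hf : ∀ a b : ℕ+, Nat.Coprime a b → f (a * b) = f a + f b) :
    Pool.Agent.helper76.IsAdd (ext f) := by
  intro a b ha hb hab
  obtain ⟨a, rfl⟩ := exists_pnat a ha
  obtain ⟨b, rfl⟩ := exists_pnat b hb
  rw [← PNat.mul_coe, ext_pnat, ext_pnat, ext_pnat, hf a b hab]

lemma desc_ext (f : ℕ+ → ℝ) (N : ℕ) :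
    (Pool.Agent.helper76.desc (ext f) N : ℝ) = count {n : ℕ+ | f (n + 1) < f n} N := by
  unfold Pool.Agent.helper76.desc count
  rw [← Set.ncard_coe_finset]
  have himg : (fun n : ℕ+ => (n : ℕ)) '' ({n : ℕ+ | f (n + 1) < f n} ∩ {n : ℕ+ | (n : ℝ) ≤ (N : ℝ)}) =
      ((((Finset.Ioc 0 N).filter (fun n => ext f (n + 1) < ext f n) : Finset ℕ)) : Set ℕ) := by
    ext n
    simp only [Set.mem_image, Set.mem_inter_iff, Set.mem_setOf_eq, Finset.coe_filter,
      Finset.mem_Ioc]
    have hkey : ∀ m : ℕ+, ext f ((m : ℕ) + 1) = f (m + 1) := by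
      intro m
      have h := ext_pnat f (m + 1)
      rw [PNat.add_coe] at h
      exact h
    constructor
    · rintro ⟨m, ⟨h1, h2⟩, rfl⟩
      refine ⟨⟨m.pos, by exact_mod_cast h2⟩, ?_⟩
      rw [hkey, ext_pnat]
      exact h1
    · rintro ⟨⟨h1, h2⟩, h3⟩
      obtain ⟨m, rfl⟩ := exists_pnat n h1
      rw [hkey, ext_pnat] at h3
      exact ⟨m, ⟨h3, by exact_mod_cast h2⟩, rfl⟩
  rw [← himg, Set.ncard_image_of_injective _ PNat.coe_injective]

lemma core (f : ℕ+ → ℝ) (hf : ∀ a b : ℕ+, Nat.Coprime a b → f (a * b) = f a + f b)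
    (h : ∀ ε : ℝ, 0 < ε → ∀ᶠ X : ℝ in atTop, count {n : ℕ+ | f (n + 1) < f n} X ≤ ε * X) :
    ∃ c : ℝ, 0 ≤ c ∧ ∀ n : ℕ+, f n = c * Real.log n := by
  have hF := isAdd_ext f hf
  have hd : Pool.Agent.helper76.SmallDesc (ext f) := by
    intro ε hε
    have h1 := (tendsto_natCast_atTop_atTop (R := ℝ)).eventually (h ε hε)
    rw [eventually_atTop] at h1
    obtain ⟨N₀, hN₀⟩ := h1
    refine ⟨N₀, fun N hN => ?_⟩
    rw [desc_ext]
    exact hN₀ N hN
  have hlog2 : 0 < Real.log 2 := Real.log_pos (by norm_num)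
  have hform : ∀ n : ℕ+, f n = f 2 / Real.log 2 * Real.log n := by
    intro n
    rcases Nat.lt_or_ge n 2 with hn | hn
    · have h1 : (n : ℕ) = 1 := by
        have h0 := n.pos
        omega
      have h2 : n = 1 := PNat.coe_injective h1
      have h3 : ext f 1 = f 1 := ext_pnat f 1
      rw [h2, ← h3, hF.one]
      simp
    · have h1 := Pool.Agent.helper76.final (ext f) hF hd n 2 hn le_rfl
      have h2 : ext f 2 = f 2 := ext_pnat f 2
      rw [ext_pnat, h2] at h1
      push_cast at h1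
      field_simp
      linarith
  refine ⟨f 2 / Real.log 2, ?_, hform⟩
  by_contra hneg
  rw [not_le] at hneg
  have h1 := (tendsto_natCast_atTop_atTop (R := ℝ)).eventually (h (1 / 2) (by norm_num))
  rw [eventually_atTop] at h1
  obtain ⟨N₀, hN₀⟩ := h1
  have h2 := hN₀ (N₀ + 1) (by omega)
  rw [← desc_ext] at h2
  have h3 : Pool.Agent.helper76.desc (ext f) (N₀ + 1) = N₀ + 1 := by
    unfold Pool.Agent.helper76.desc
    rw [Finset.filter_true_of_mem, Nat.card_Ioc]
    · simp
    · intro n hn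
      rw [Finset.mem_Ioc] at hn
      obtain ⟨m, rfl⟩ := exists_pnat n hn.1
      have e2 : ext f ((m : ℕ) + 1) = f (m + 1) := by
        have h := ext_pnat f (m + 1)
        rw [PNat.add_coe] at h
        exact h
      rw [ext_pnat, e2, hform m, hform (m + 1)]
      have hlt : Real.log m < Real.log ((m + 1 : ℕ+) : ℝ) := by
        apply Real.log_lt_log
        · exact_mod_cast m.pos
        · push_cast
          linarith
      exact mul_lt_mul_of_neg_left hlt hneg
  rw [h3] at h2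
  push_cast at h2
  have h4 : (0 : ℝ) ≤ N₀ := Nat.cast_nonneg _
  linarith

lemma count_nonneg (A : Set ℕ+) (X : ℝ) : 0 ≤ count A X := Nat.cast_nonneg _

lemma count_le (A : Set ℕ+) (X : ℝ) (hX : 0 ≤ X) : count A X ≤ X := by
  unfold count
  have h1 : (fun n : ℕ+ => (n : ℕ)) '' (A ∩ {n : ℕ+ | (n : ℝ) ≤ X}) ⊆
      ((Finset.Icc (1 : ℕ) ⌊X⌋₊ : Finset ℕ) : Set ℕ) := by
    rintro m ⟨n, ⟨-, hn⟩, rfl⟩
    exact Finset.mem_coe.mpr (Finset.mem_Icc.mpr ⟨n.pos, Nat.le_floor hn⟩)
  have h2 := Set.ncard_le_ncard h1 (Finset.finite_toSet _)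
  rw [Set.ncard_coe_finset, Set.ncard_image_of_injective _ PNat.coe_injective, Nat.card_Icc,
    Nat.add_sub_cancel] at h2
  calc ((A ∩ {n : ℕ+ | (n : ℝ) ≤ X}).ncard : ℝ) ≤ (⌊X⌋₊ : ℝ) := by exact_mod_cast h2
    _ ≤ X := Nat.floor_le hX

/-- A set that is not small has positive upper density. -/
lemma pos_limsup (A : Set ℕ+)
    (h : ¬ ∀ ε : ℝ, 0 < ε → ∀ᶠ X : ℝ in atTop, count A X ≤ ε * X) :
    0 < limsup (fun X : ℝ => count A X / X) atTop := by
  by_contra hcon
  rw [not_lt] at hcon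
  apply h
  intro ε hε
  have hbdd : IsBoundedUnder (· ≤ ·) atTop (fun X : ℝ => count A X / X) := by
    refine ⟨1, ?_⟩
    rw [eventually_map]
    filter_upwards [eventually_gt_atTop (0 : ℝ)] with X hX
    rw [div_le_one hX]
    exact count_le A X hX.le
  have h1 := eventually_lt_of_limsup_lt (lt_of_le_of_lt hcon hε) hbdd
  filter_upwards [h1, eventually_gt_atTop (0 : ℝ)] with X hX hX0
  rw [div_lt_iff₀ hX0] at hX
  exact hX.le

lemma small_of_isLittleO (A : Set ℕ+) (h : (fun X : ℝ => count A X) =o[atTop] (fun X : ℝ => X)) :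
    ∀ ε : ℝ, 0 < ε → ∀ᶠ X : ℝ in atTop, count A X ≤ ε * X := by
  intro ε hε
  have h1 := h.def hε
  filter_upwards [h1, eventually_gt_atTop (0 : ℝ)] with X hX hX0
  rw [Real.norm_of_nonneg (count_nonneg A X), Real.norm_of_nonneg hX0.le] at hX
  exact hX

/-- Let `f` be a real additive function on the positive integers.

(1) The set of descents of `f` has natural density `0` if and only if `f = c log` for some
`c ≥ 0` (and then it is empty).

(2) The set of weak descents, `f (n + 1) ≤ f n`, has natural density `0` if and only if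
`f = c log` for some `c > 0`.

(3) If `f` is of the form `c log` for no real `c`, then the set of descents and the set of
ascents of `f` both have positive upper density. -/
theorem result (f : ℕ+ → ℝ) (hf : ∀ a b : ℕ+, Nat.Coprime a b → f (a * b) = f a + f b) :
    ((fun X : ℝ => count {n : ℕ+ | f (n + 1) < f n} X) =o[atTop] (fun X : ℝ => X) ↔
      ∃ c : ℝ, 0 ≤ c ∧ ∀ n : ℕ+, f n = c * Real.log n) ∧
    ((fun X : ℝ => count {n : ℕ+ | f (n + 1) ≤ f n} X) =o[atTop] (fun X : ℝ => X) ↔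
      ∃ c : ℝ, 0 < c ∧ ∀ n : ℕ+, f n = c * Real.log n) ∧
    ((¬ ∃ c : ℝ, ∀ n : ℕ+, f n = c * Real.log n) →
      0 < limsup (fun X : ℝ => count {n : ℕ+ | f (n + 1) < f n} X / X) atTop ∧
      0 < limsup (fun X : ℝ => count {n : ℕ+ | f n < f (n + 1)} X / X) atTop) := by
  have hlog : ∀ n : ℕ+, Real.log n < Real.log ((n + 1 : ℕ+) : ℝ) := by
    intro n
    apply Real.log_lt_log
    · exact_mod_cast n.2
    · push_cast
      linarith
  have hempty : ∀ A : Set ℕ+, A = ∅ →
      (fun X : ℝ => count A X) =o[atTop] (fun X : ℝ => X) := by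
    intro A hA
    have : (fun X : ℝ => count A X) = fun _ : ℝ => (0 : ℝ) := by
      funext X
      unfold count
      rw [hA, Set.empty_inter, Set.ncard_empty, Nat.cast_zero]
    rw [this]
    exact isLittleO_zero _ _
  refine ⟨⟨fun h => core f hf (small_of_isLittleO _ h), ?_⟩, ⟨?_, ?_⟩, ?_⟩
  · rintro ⟨c, hc, hn⟩
    apply hempty
    rw [Set.eq_empty_iff_forall_notMem]
    intro n hlt
    rw [Set.mem_setOf_eq, hn n, hn (n + 1)] at hlt
    exact absurd hlt (not_lt.mpr (mul_le_mul_of_nonneg_left (hlog n).le hc))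
  · intro h
    have hsmall := small_of_isLittleO _ h
    have hfin : ∀ X : ℝ, ({n : ℕ+ | f (n + 1) ≤ f n} ∩ {n : ℕ+ | (n : ℝ) ≤ X}).Finite := by
      intro X
      apply (Set.Finite.preimage (PNat.coe_injective.injOn) (Set.finite_Iic ⌊X⌋₊)).subset
      rintro n ⟨-, hn⟩
      exact Nat.le_floor hn
    obtain ⟨c, hc, hn⟩ := core f hf (by
      intro ε hε
      filter_upwards [hsmall ε hε] with X hX
      refine le_trans ?_ hX
      unfold count
      have hsub : ({n : ℕ+ | f (n + 1) < f n} ∩ {n : ℕ+ | (n : ℝ) ≤ X}) ⊆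
          ({n : ℕ+ | f (n + 1) ≤ f n} ∩ {n : ℕ+ | (n : ℝ) ≤ X}) := by
        rintro n ⟨h1, h2⟩
        exact ⟨le_of_lt (show f (n + 1) < f n from h1), h2⟩
      exact_mod_cast Set.ncard_le_ncard hsub (hfin X))
    refine ⟨c, lt_of_le_of_ne hc ?_, hn⟩
    intro h0
    obtain ⟨c', hc', hn'⟩ := core (fun n => - Real.log n) (by
      intro a b _
      have ha : (a : ℝ) ≠ 0 := by exact_mod_cast a.ne_zero
      have hb : (b : ℝ) ≠ 0 := by exact_mod_cast b.ne_zero
      show - Real.log ((a * b : ℕ+) : ℝ) = - Real.log a + - Real.log b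
      rw [PNat.mul_coe, Nat.cast_mul, Real.log_mul ha hb]
      ring) (by
      intro ε hε
      filter_upwards [hsmall ε hε] with X hX
      refine le_trans ?_ hX
      unfold count
      have hsub : ({n : ℕ+ | - Real.log ((n + 1 : ℕ+) : ℝ) < - Real.log n} ∩ {n : ℕ+ | (n : ℝ) ≤ X}) ⊆
          ({n : ℕ+ | f (n + 1) ≤ f n} ∩ {n : ℕ+ | (n : ℝ) ≤ X}) := by
        rintro n ⟨h1, h2⟩
        refine ⟨?_, h2⟩
        rw [Set.mem_setOf_eq, hn n, hn (n + 1), ← h0]
        simp
      exact_mod_cast Set.ncard_le_ncard hsub (hfin X))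
    have h2 := hn' 2
    have hlog2 : 0 < Real.log ((2 : ℕ+) : ℝ) := by
      apply Real.log_pos
      norm_num
    have h3 : 0 ≤ c' * Real.log ((2 : ℕ+) : ℝ) := mul_nonneg hc' hlog2.le
    linarith
  · rintro ⟨c, hc, hn⟩
    apply hempty
    rw [Set.eq_empty_iff_forall_notMem]
    intro n hle
    rw [Set.mem_setOf_eq, hn n, hn (n + 1)] at hle
    exact absurd hle (not_le.mpr (mul_lt_mul_of_pos_left (hlog n) hc))
  · intro hno
    constructor
    · apply pos_limsup
      intro h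
      obtain ⟨c, -, hn⟩ := core f hf h
      exact hno ⟨c, hn⟩
    · apply pos_limsup
      intro h
      obtain ⟨c, -, hn⟩ := core (fun n => - f n) (by
        intro a b hab
        show - f (a * b) = - f a + - f b
        rw [hf a b hab]
        ring) (by
        have hset : {n : ℕ+ | - f (n + 1) < - f n} = {n : ℕ+ | f n < f (n + 1)} := by
          ext n
          simp only [Set.mem_setOf_eq, neg_lt_neg_iff]
        intro ε hε
        simp only [hset]
        exact h ε hε)
      exact hno ⟨-c, fun n => by linarith [hn n]⟩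

end Pool.Agent.Results.MP_f916f1_nt.DescentsAndAscents
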